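import Pool.Agent.Helper22.RKI.St

/-! # Project RK, part (i): module CEN -/

set_option autoImplicit false

namespace Pool.Agent.Helper30.RKI

open Pool.Agent.Helper22.RKI Pool.Agent.Helper43.RK

private lemma conjf {G : Type} [Group G] (f t : G) (h : f⁻¹ * t * f = t ^ 2) (x : ℤ) :
    f⁻¹ * t ^ x * f = t ^ (2 * x) := by
  have h1 : f⁻¹ * t ^ x * f = (f⁻¹ * t * f) ^ x := by
    have := (map_zpow (MulAut.conj f⁻¹) t x)
    simpa [MulAut.conj_apply] using this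
  rw [h1, h, zpow_mul]
  norm_cast

private lemma conjfn {G : Type} [Group G] (f t : G) (h : f⁻¹ * t * f = t ^ 2) (j : ℕ) :
    (f ^ j)⁻¹ * t * f ^ j = t ^ ((2 : ℤ) ^ j) := by
  induction j with
  | zero => simp
  | succ j ih =>
    have e : (f ^ (j + 1))⁻¹ * t * f ^ (j + 1) = f⁻¹ * ((f ^ j)⁻¹ * t * f ^ j) * f := by
      rw [pow_succ]; group
    rw [e, ih, conjf f t h, pow_succ, mul_comm]

theorem hCEN : StCEN := by
  intro n k hk1 hkodd G _ f a t r2 r1 hR0 hRY hf ht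
  obtain ⟨K, rfl⟩ : ∃ K, k = K + 1 := ⟨k - 1, by omega⟩
  rw [Nat.add_sub_cancel] at ht
  have hZ : f ^ (1 - ((K + 1 : ℕ) : ℤ)) = (f ^ K)⁻¹ := by
    rw [show (1 - ((K + 1 : ℕ) : ℤ)) = -(K : ℤ) by push_cast; ring, zpow_neg, zpow_natCast]
  -- powers of t
  have htz : t ^ ((2 : ℤ) ^ K - 1) = 1 := by
    have h1 : (1 : ℕ) ≤ 2 ^ K := Nat.one_le_two_pow
    have h2 : ((2 : ℤ) ^ K - 1) = ((2 ^ K - 1 : ℕ) : ℤ) := by
      rw [Nat.cast_sub h1]; push_cast; ring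
    rw [h2, zpow_natCast, ht]
  have tdvd : ∀ x y : ℤ, ((2 : ℤ) ^ K - 1) ∣ x - y → t ^ x = t ^ y := by
    intro x y hxy
    obtain ⟨c, hc⟩ := hxy
    have : x = y + ((2 : ℤ) ^ K - 1) * c := by rw [← hc]; ring
    rw [this, zpow_add, zpow_mul, htz, one_zpow, mul_one]
  -- W = f ^ K
  obtain ⟨W, hW⟩ : ∃ W, W = f ^ K := ⟨_, rfl⟩
  have hWt : W * t = t * W := by
    have h1 := conjfn f t r2 K
    rw [tdvd ((2 : ℤ) ^ K) 1 (dvd_refl _), zpow_one, ← hW] at h1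
    calc W * t = W * (W⁻¹ * t * W) := by rw [h1]
      _ = t * W := by group
  have hWf : W * f = f * W := by
    rw [hW, ← pow_succ, ← pow_succ']
  have hW1 : a⁻¹ * W * a = W⁻¹ := by
    have h1 : a⁻¹ * W * a = (a⁻¹ * f * a) ^ K := by
      have := (map_pow (MulAut.conj a⁻¹) f K)
      rw [hW]
      simpa [MulAut.conj_apply] using this
    have h2 : (f ^ (K + 1)) ^ K * W = 1 := by
      rw [hW, ← pow_mul, ← pow_add]
      rw [← hf]
      congr 1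
      have : (K + 1) ^ 2 = (K + 1) * K + K + 1 := by ring
      rw [this]; rfl
    rw [h1, r1]
    exact eq_inv_of_mul_eq_one_left h2
  have hWa : W * a = a * W⁻¹ := by
    calc W * a = a * (a⁻¹ * W * a) := by group
      _ = a * W⁻¹ := by rw [hW1]
  have hWa' : W⁻¹ * a = a * W := by
    calc W⁻¹ * a = W⁻¹ * (a * W⁻¹) * W := by group
      _ = W⁻¹ * (W * a) * W := by rw [hWa]
      _ = a * W := by group
  have hct : ∀ x : ℤ, Commute W (t ^ x) := fun x => (show Commute W t from hWt).zpow_right x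
  rw [hZ, ← hW]
  unfold Rel0 at hR0
  rw [hZ, ← hW] at hR0
  obtain ⟨Q, hQ⟩ : ∃ Q : ℤ, Q = 2 ^ n := ⟨_, rfl⟩
  rw [← hQ] at hR0
  -- W ^ 2 = 1
  have hWW : W * W = 1 := by
    have h1 : W * (a * t⁻¹ * a) = a * t⁻¹ * a * W := by
      have ht1 : W⁻¹ * t⁻¹ = t⁻¹ * W⁻¹ := by
        have := (hct (-1)).inv_left
        rw [zpow_neg_one] at this
        exact this
      calc W * (a * t⁻¹ * a) = (W * a) * t⁻¹ * a := by group
        _ = a * (W⁻¹ * t⁻¹) * a := by rw [hWa]; group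
        _ = a * t⁻¹ * (W⁻¹ * a) := by rw [ht1]; group
        _ = a * t⁻¹ * a * W := by rw [hWa']; group
    have h2 : W * (t ^ (Q - 1) * a * W⁻¹ * t ^ (-Q)) = t ^ (Q - 1) * a * W⁻¹ * t ^ (-Q) * W⁻¹ := by
      have e1 : W * t ^ (Q - 1) = t ^ (Q - 1) * W := hct _
      have e2 : W⁻¹ * t ^ (-Q) = t ^ (-Q) * W⁻¹ := (hct (-Q)).inv_left
      calc W * (t ^ (Q - 1) * a * W⁻¹ * t ^ (-Q)) = (W * t ^ (Q - 1)) * a * W⁻¹ * t ^ (-Q) := by group
        _ = t ^ (Q - 1) * (W * a) * W⁻¹ * t ^ (-Q) := by rw [e1]; group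
        _ = t ^ (Q - 1) * a * W⁻¹ * (W⁻¹ * t ^ (-Q)) := by rw [hWa]; group
        _ = t ^ (Q - 1) * a * W⁻¹ * t ^ (-Q) * W⁻¹ := by rw [e2]; group
    rw [← hR0, h1] at h2
    have h3 : W = W⁻¹ := mul_left_cancel h2
    calc W * W = W * W⁻¹ := by rw [← h3]
      _ = 1 := mul_inv_cancel W
  have hWi : W⁻¹ = W := inv_eq_of_mul_eq_one_left hWW
  rw [hWi] at hWa hR0 ⊢
  have hcomt : Commute W t := hWt
  have hcoma : Commute W a := hWa
  refine ⟨hWW, hcomt, hcoma, ?_⟩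
  -- (II)
  have hII : a * t ^ (2 * Q - 2) * a = t ^ (-2 : ℤ) * a * t ^ (2 * Q) * W := by
    unfold RelY at hRY
    rw [← hQ] at hRY
    have x1 : t ^ (Q * (2 : ℤ) ^ (K + 1) - 2) = t ^ (2 * Q - 2) := by
      apply tdvd
      refine ⟨2 * Q, ?_⟩
      rw [pow_succ]; ring
    have x2 : t ^ (-(2 * ((2 : ℤ) ^ (K + 1) - 1))) = t ^ (-2 : ℤ) := by
      apply tdvd
      refine ⟨-4, ?_⟩
      rw [pow_succ]; ring
    have x3 : t ^ (Q * ((2 : ℤ) ^ (K + 1) - 1) * 2 ^ ((K + 1) ^ 2)) = t ^ (2 * Q) := by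
      apply tdvd
      have hp : (2 : ℤ) ^ ((K + 1) ^ 2) = 2 * ((2 : ℤ) ^ K) ^ (K + 2) := by
        rw [← pow_mul, ← pow_succ']
        congr 1
        ring
      obtain ⟨c, hc⟩ := sub_dvd_pow_sub_pow ((2 : ℤ) ^ K) 1 (K + 2)
      rw [one_pow] at hc
      refine ⟨2 * Q * (2 * ((2 : ℤ) ^ K) ^ (K + 2) + c), ?_⟩
      rw [hp, pow_succ]
      have : ((2 : ℤ) ^ K) ^ (K + 2) = 1 + ((2 : ℤ) ^ K - 1) * c := by rw [← hc]; ring
      linear_combination (2 * Q) * this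
    have x4 : f ^ ((1 - ((K + 1 : ℕ) : ℤ)) * ((K + 1 : ℕ) : ℤ)) = W := by
      rw [zpow_mul, hZ, ← hW, hWi, zpow_natCast]
      obtain ⟨s, hs⟩ : ∃ s, K + 1 = 2 * s + 1 := ⟨(K + 1) / 2, by omega⟩
      rw [hs, pow_succ, pow_mul, pow_two, hWW, one_pow, one_mul]
    rw [x1, x2, x3, x4] at hRY
    exact hRY
  -- (I)
  have hI : a * t ^ (-2 : ℤ) * a = t ^ (2 * Q - 2) * a * t ^ (-(2 * Q)) := by
    have ea : f⁻¹ * a * f = a * W := by
      have h1 : a⁻¹ * f⁻¹ * a = (f ^ (K + 1))⁻¹ := by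
        rw [← r1]; group
      calc f⁻¹ * a * f = a * (a⁻¹ * f⁻¹ * a) * f := by group
        _ = a * ((f ^ K * f)⁻¹ * f) := by rw [h1, pow_succ]; group
        _ = a * (f⁻¹ * W⁻¹ * f) := by rw [← hW, mul_inv_rev]
        _ = a * (f⁻¹ * (W * f)) := by rw [hWi]; group
        _ = a * (f⁻¹ * (f * W)) := by rw [hWf]
        _ = a * W := by group
    have eW : f⁻¹ * W * f = W := by
      calc f⁻¹ * W * f = f⁻¹ * (W * f) := by group
        _ = f⁻¹ * (f * W) := by rw [hWf]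
        _ = W := by group
    have et : ∀ x : ℤ, f⁻¹ * t ^ x * f = t ^ (2 * x) := conjf f t r2
    have h1 : f⁻¹ * (a * t ^ (-1 : ℤ) * a) * f = (a * W) * t ^ (2 * (-1 : ℤ)) * (a * W) := by
      rw [← ea, ← et]; group
    have h2 : f⁻¹ * (t ^ (Q - 1) * a * W * t ^ (-Q)) * f =
        t ^ (2 * (Q - 1)) * (a * W) * W * t ^ (2 * (-Q)) := by
      calc f⁻¹ * (t ^ (Q - 1) * a * W * t ^ (-Q)) * f =
          (f⁻¹ * t ^ (Q - 1) * f) * (f⁻¹ * a * f) * (f⁻¹ * W * f) * (f⁻¹ * t ^ (-Q) * f) := by group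
        _ = _ := by rw [et, et, ea, eW]
    have h3 : a * t ^ (-1 : ℤ) * a = t ^ (Q - 1) * a * W * t ^ (-Q) := by
      rw [zpow_neg_one]; exact hR0
    rw [h3, h2] at h1
    have h4 : (a * W) * t ^ (2 * (-1 : ℤ)) * (a * W) = a * t ^ (-2 : ℤ) * a := by
      have e1 : W * t ^ (-2 : ℤ) = t ^ (-2 : ℤ) * W := hct _
      calc (a * W) * t ^ (2 * (-1 : ℤ)) * (a * W) = a * (W * t ^ (-2 : ℤ)) * (a * W) := by
            rw [show (2 * (-1 : ℤ)) = -2 by norm_num]; group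
        _ = a * t ^ (-2 : ℤ) * (W * a) * W := by rw [e1]; group
        _ = a * t ^ (-2 : ℤ) * a * (W * W) := by rw [hWa]; group
        _ = a * t ^ (-2 : ℤ) * a := by rw [hWW, mul_one]
    rw [h4] at h1
    rw [← h1]
    calc t ^ (2 * (Q - 1)) * (a * W) * W * t ^ (2 * (-Q)) =
        t ^ (2 * (Q - 1)) * a * (W * W) * t ^ (2 * (-Q)) := by group
      _ = t ^ (2 * Q - 2) * a * t ^ (-(2 * Q)) := by
          rw [hWW, mul_one, show 2 * (Q - 1) = 2 * Q - 2 by ring, show 2 * (-Q) = -(2 * Q) by ring]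
  -- conclusion
  have hI' : t ^ (2 * Q - 2) = a * t ^ (-2 : ℤ) * a * t ^ (2 * Q) * a⁻¹ := by
    rw [hI]; group
  rw [hI'] at hII
  have h5 : a * a * (t ^ (-2 : ℤ) * a * t ^ (2 * Q)) = t ^ (-2 : ℤ) * a * t ^ (2 * Q) * W := by
    rw [← hII]; group
  have h6 : t ^ (-2 : ℤ) * a * t ^ (2 * Q) * W = W * (t ^ (-2 : ℤ) * a * t ^ (2 * Q)) := by
    have c1 : Commute W (t ^ (-2 : ℤ) * a * t ^ (2 * Q)) :=
      ((hct _).mul_right hcoma).mul_right (hct _)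
    exact c1.eq.symm
  rw [h6] at h5
  exact mul_right_cancel h5

end Pool.Agent.Helper30.RKI
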